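import Mathlib

set_option autoImplicit false

namespace Pool.Agent.Results.MP_2a0e18_al.Yes

open TensorProduct

/-- Two-sided group-like projections of a Hopf algebra. -/
def TwoSided (k : Type) {A : Type} [Field k] [Ring A] [HopfAlgebra k A] (P : A) : Prop :=
  P ≠ 0 ∧ P * P = P ∧
    (Coalgebra.comul (R := k) P * (1 ⊗ₜ P) = P ⊗ₜ P ∧ (1 ⊗ₜ P) * Coalgebra.comul (R := k) P = P ⊗ₜ P) ∧
    (Coalgebra.comul (R := k) P * (P ⊗ₜ 1) = P ⊗ₜ P ∧ (P ⊗ₜ 1) * Coalgebra.comul (R := k) P = P ⊗ₜ P)

abbrev K := AlgebraicClosure (ZMod 2)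

lemma two {B : Type} [AddCommMonoid B] [Module K B] (b : B) : b + b = 0 := by
  rw [← two_smul K, show (2 : K) = 0 from CharP.cast_eq_zero K 2, zero_smul]

inductive R : FreeAlgebra K Bool → FreeAlgebra K Bool → Prop
  | a : R (.ι K true * .ι K true) (.ι K true)
  | b : R (.ι K false * .ι K false) 0
  | c : R (.ι K false * .ι K true) (.ι K false + .ι K true * .ι K false)

/-- The restricted enveloping algebra of the two-dimensional non-abelian Lie algebra. -/
abbrev A := RingQuot R

noncomputable def g (i : Bool) : A := RingQuot.mkAlgHom K R (.ι K i)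

lemma tt : g true * g true = g true := by simpa [g] using RingQuot.mkAlgHom_rel K R.a
lemma xx : g false * g false = 0 := by simpa [g] using RingQuot.mkAlgHom_rel K R.b
lemma xt : g false * g true = g false + g true * g false := by
  simpa [g] using RingQuot.mkAlgHom_rel K R.c

noncomputable def lift {B : Type} [Semiring B] [Algebra K B] (f : Bool → B)
    (h1 : f true * f true = f true) (h2 : f false * f false = 0)
    (h3 : f false * f true = f false + f true * f false) : A →ₐ[K] B :=
  RingQuot.liftAlgHom K ⟨FreeAlgebra.lift K f, by rintro _ _ (_ | _ | _) <;> simpa⟩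

@[simp] lemma lift_g {B : Type} [Semiring B] [Algebra K B] (f : Bool → B) (h1 h2 h3) (i : Bool) :
    lift f h1 h2 h3 (g i) = f i := by simp [lift, g]

lemma hext {B : Type} [Semiring B] [Algebra K B] {φ ψ : A →ₐ[K] B} (h : ∀ i, φ (g i) = ψ (g i)) :
    φ = ψ := RingQuot.ringQuot_ext' K _ _ (FreeAlgebra.hom_ext (funext h))

lemma span : Submodule.span K {1, g true, g false, g true * g false} = ⊤ := by
  set W := Submodule.span K {1, g true, g false, g true * g false}
  have m : ∀ y ∈ ({1, g true, g false, g true * g false} : Set A), y ∈ W :=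
    fun _ hy => Submodule.subset_span hy
  have : ∀ a, ∀ w ∈ W, RingQuot.mkAlgHom K R a * w ∈ W := fun a => by
    induction a using FreeAlgebra.induction with
    | grade0 r => intro w hw; rw [AlgHom.commutes, ← Algebra.smul_def]; exact W.smul_mem _ hw
    | grade1 i =>
      intro w hw
      change g i * w ∈ W
      induction hw using Submodule.span_induction with
      | mem y hy =>
        rcases hy with rfl | rfl | rfl | rfl <;> cases i <;>
          first
            | (refine m _ ?_; simp [tt, ← mul_assoc]; done)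
            | exact xt ▸ W.add_mem (m _ (by simp)) (m _ (by simp))
            | simp [← mul_assoc, xt, add_mul, xx, mul_assoc (g true) (g false)]
      | zero => simp
      | add _ _ _ _ h1 h2 => rw [mul_add]; exact W.add_mem h1 h2
      | smul _ _ _ h => rw [mul_smul_comm]; exact W.smul_mem _ h
    | mul a b ha hb => intro w hw; rw [map_mul, mul_assoc]; exact ha _ (hb _ hw)
    | add a b ha hb => intro w hw; rw [map_add, add_mul]; exact W.add_mem (ha _ hw) (hb _ hw)
  refine eq_top_iff.2 fun a _ => ?_
  obtain ⟨a, rfl⟩ := RingQuot.mkAlgHom_surjective K R a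
  simpa using this a 1 (m _ (by simp))

noncomputable def Δ : A →ₐ[K] A ⊗[K] A := lift (fun i => g i ⊗ₜ 1 + 1 ⊗ₜ g i)
  (by
    simp only [add_mul, mul_add, Algebra.TensorProduct.tmul_mul_tmul, tt, mul_one, one_mul]
    rw [add_assoc, ← add_assoc (g true ⊗ₜ[K] g true), two, zero_add])
  (by
    simp only [add_mul, mul_add, Algebra.TensorProduct.tmul_mul_tmul, xx, mul_one, one_mul]
    simp [two])
  (by
    simp only [add_mul, mul_add, Algebra.TensorProduct.tmul_mul_tmul, xt, mul_one, one_mul,
      add_tmul, tmul_add]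
    abel)

noncomputable def ε : A →ₐ[K] K := lift (fun _ => 0) (by simp) (by simp) (by simp)

noncomputable instance bi : Bialgebra K A := .ofAlgHom Δ ε
  (hext fun i => by simp [Δ, add_tmul, tmul_add, add_assoc, Algebra.TensorProduct.one_def])
  (hext fun i => by simp [Δ, ε]) (hext fun i => by simp [Δ, ε])

noncomputable def S : A →ₐ[K] Aᵐᵒᵖ := lift (fun i => .op (g i))
  (by rw [← MulOpposite.op_mul, tt]) (by rw [← MulOpposite.op_mul, xx]; rfl)
  (by rw [← MulOpposite.op_mul, ← MulOpposite.op_mul, ← MulOpposite.op_add, xt, ← add_assoc, two,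
    zero_add])

lemma cm (a : A) : Coalgebra.comul (R := K) a = Δ a := rfl
lemma cu (a : A) : Coalgebra.counit (R := K) a = ε a := rfl

noncomputable instance hopf : HopfAlgebra K A where
  antipode := (MulOpposite.opLinearEquiv K).symm.toLinearMap ∘ₗ S.toLinearMap
  mul_antipode_rTensor_comul := LinearMap.ext_on span (by
    rintro _ (rfl | rfl | rfl | rfl) <;>
      simp [cm, cu, Δ, ε, S, two, add_mul, mul_add, Algebra.TensorProduct.one_def])
  mul_antipode_lTensor_comul := LinearMap.ext_on span (by
    rintro _ (rfl | rfl | rfl | rfl) <;>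
      simp [cm, cu, Δ, ε, S, two, add_mul, mul_add, Algebra.TensorProduct.one_def])

noncomputable def ρ : A →ₐ[K] Matrix (Fin 2) (Fin 2) K :=
  lift (fun i => if i then !![1, 0; 0, 0] else !![0, 1; 0, 0])
    (by ext i j; fin_cases i <;> fin_cases j <;> simp [Matrix.mul_apply])
    (by ext i j; fin_cases i <;> fin_cases j <;> simp [Matrix.mul_apply])
    (by ext i j; fin_cases i <;> fin_cases j <;> simp [Matrix.mul_apply, two])

theorem result : ∃ (k : Type) (_ : Field k) (A : Type) (_ : Ring A) (_ : HopfAlgebra k A),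
    Module.Finite k A ∧ {P : A | TwoSided k P}.Infinite := by
  refine ⟨K, inferInstance, A, inferInstance, hopf, ⟨span ▸ Submodule.fg_span (Set.toFinite _)⟩,
    Set.infinite_of_injective_forall_mem (f := fun c : K => 1 + (g true + c • g false))
      (fun c d h => by simpa [ρ] using congrArg (ρ · 0 1) h) fun c => ?_⟩
  set u := g true + c • g false with hu
  have uu : u * u = u := by
    simp only [hu, add_mul, mul_add, tt, xx, xt, smul_mul_assoc, mul_smul_comm, smul_add, smul_zero]
    linear_combination (norm := abel1) two (c • (g true * g false))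
  have h1 : u * (1 + u) = 0 := by rw [mul_add, mul_one, uu, two]
  have h2 : (1 + u) * u = 0 := by rw [add_mul, one_mul, uu, two]
  have hd : Coalgebra.comul (R := K) (1 + u) = 1 ⊗ₜ 1 + (u ⊗ₜ 1 + 1 ⊗ₜ u) := by
    simp only [cm, hu, map_add, map_smul, map_one, Δ, lift_g, add_tmul, tmul_add, smul_add,
      smul_tmul', tmul_smul, Algebra.TensorProduct.one_def]
    abel
  refine ⟨fun h => by simpa [ρ, hu] using congrArg (ρ · 1 1) h, by rw [add_mul, one_mul, h1, add_zero],
    ⟨?_, ?_⟩, ?_, ?_⟩ <;> rw [hd]
  · simp only [add_mul, Algebra.TensorProduct.tmul_mul_tmul, h1, one_mul, mul_one, tmul_zero,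
      add_zero, ← add_tmul]
  · simp only [mul_add ((1 : A) ⊗ₜ[K] (1 + u)), Algebra.TensorProduct.tmul_mul_tmul, h2, one_mul, mul_one, tmul_zero,
      add_zero, ← add_tmul]
  · simp only [add_mul, Algebra.TensorProduct.tmul_mul_tmul, h1, one_mul, mul_one, zero_tmul,
      zero_add, ← tmul_add]
  · simp only [mul_add ((1 + u) ⊗ₜ[K] (1 : A)), Algebra.TensorProduct.tmul_mul_tmul, h2, one_mul, mul_one, zero_tmul,
      zero_add, ← tmul_add]

end Pool.Agent.Results.MP_2a0e18_al.Yes
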